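import Pool.Agent.X194.LG.Ent

/-!
# MP_3cd2af_an: reordering a composition of three logistic maps changes the entropy

For the parameters `8/3, 4, 1` the composition `f₁ ∘ f₂ ∘ f₃` has entropy `0` and the composition
`f₁ ∘ f₃ ∘ f₂` has entropy at least `(log 2)/2`.
-/

namespace Pool.Agent.Results.MP_3cd2af_an.LogisticReordering

open Set Topology Filter Dynamics Pool.Agent.X194.LG

/-- the logistic map with parameter `a ∈ [1,4]` on the unit interval -/
def logistic (a : Icc (1 : ℝ) 4) (x : unitInterval) : unitInterval :=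
  ⟨a * x * (1 - x), by
    obtain ⟨h1, h2⟩ := a.2
    obtain ⟨h3, h4⟩ := x.2
    have h5 : 0 ≤ (x : ℝ) * (1 - x) := mul_nonneg h3 (by linarith)
    have h6 : (x : ℝ) * (1 - x) ≤ 1 / 4 := by nlinarith [sq_nonneg ((x : ℝ) - 1 / 2)]
    constructor
    · rw [mul_assoc]; positivity
    · rw [mul_assoc]; nlinarith⟩

/-- the parameter `8/3` -/
noncomputable def p : Icc (1 : ℝ) 4 := ⟨8 / 3, by norm_num, by norm_num⟩
/-- the parameter `4` -/
noncomputable def q : Icc (1 : ℝ) 4 := ⟨4, by norm_num, le_rfl⟩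
/-- the parameter `1` -/
noncomputable def r : Icc (1 : ℝ) 4 := ⟨1, le_rfl, by norm_num⟩

/-! ### the composition with entropy zero -/

/-- the first composition -/
noncomputable def F : unitInterval → unitInterval := logistic p ∘ logistic q ∘ logistic r

/-- its formula -/
noncomputable def FF (x : ℝ) : ℝ :=
  8 / 3 * (4 * (1 * x * (1 - x)) * (1 - 1 * x * (1 - x))) *
    (1 - 4 * (1 * x * (1 - x)) * (1 - 1 * x * (1 - x)))

lemma F_coe (x : unitInterval) : ((F x : unitInterval) : ℝ) = FF x := rfl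

lemma FF_symm (x : ℝ) : FF (1 - x) = FF x := by unfold FF; ring

lemma y_bounds {x : ℝ} (h0 : 0 ≤ x) (h1 : x ≤ 1) : 0 ≤ x * (1 - x) ∧ x * (1 - x) ≤ 1 / 4 :=
  ⟨mul_nonneg h0 (by linarith), by nlinarith [sq_nonneg (x - 1 / 2)]⟩

lemma FF_le {x : ℝ} : FF x ≤ 2 / 3 := by
  unfold FF
  nlinarith [sq_nonneg (4 * (1 * x * (1 - x)) * (1 - 1 * x * (1 - x)) - 1 / 2)]

lemma FF_mid {x : ℝ} (h0 : 1 / 12 ≤ x) (h1 : x ≤ 11 / 12) : 1 / 2 ≤ FF x := by
  have hy1 : 11 / 144 ≤ x * (1 - x) := by nlinarith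
  have hy2 : x * (1 - x) ≤ 1 / 4 := by nlinarith [sq_nonneg (x - 1 / 2)]
  have e : FF x = 8 / 3 * (4 * (x * (1 - x)) * (1 - x * (1 - x))) *
      (1 - 4 * (x * (1 - x)) * (1 - x * (1 - x))) := by unfold FF; ring
  rw [e]
  generalize x * (1 - x) = y at hy1 hy2
  have hz1 : 1 / 4 ≤ 4 * y * (1 - y) := by nlinarith
  have hz2 : 4 * y * (1 - y) ≤ 3 / 4 := by nlinarith
  generalize 4 * y * (1 - y) = z at hz1 hz2
  nlinarith

lemma FF_exp {x y : ℝ} (h0 : 0 ≤ x) (hxy : x ≤ y) (h1 : y ≤ 1 / 12) : y - x ≤ FF y - FF x := by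
  have hx : 0 ≤ x * (1 - x) := mul_nonneg h0 (by linarith)
  have hy : y * (1 - y) ≤ 11 / 144 := by nlinarith
  have hd : 5 / 6 * (y - x) ≤ y * (1 - y) - x * (1 - x) := by nlinarith
  have e : ∀ t, FF t = 8 / 3 * (4 * (t * (1 - t)) * (1 - t * (1 - t))) *
      (1 - 4 * (t * (1 - t)) * (1 - t * (1 - t))) := by intro t; unfold FF; ring
  rw [e, e]
  generalize x * (1 - x) = u at hx hd
  generalize y * (1 - y) = v at hy hd
  have huv : u ≤ v := by nlinarith
  have hz1 : 0 ≤ 4 * u * (1 - u) := by nlinarith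
  have hz2 : 4 * v * (1 - v) ≤ 3 / 10 := by nlinarith
  have hd2 : 3 * (v - u) ≤ 4 * v * (1 - v) - 4 * u * (1 - u) := by nlinarith
  generalize 4 * u * (1 - u) = a at hz1 hd2
  generalize 4 * v * (1 - v) = b at hz2 hd2
  have hab : a ≤ b := by nlinarith
  nlinarith

lemma FF_nonexp {x y : ℝ} (hx0 : 1 / 2 ≤ x) (hx1 : x ≤ 2 / 3) (hy0 : 1 / 2 ≤ y) (hy1 : y ≤ 2 / 3) :
    |FF x - FF y| ≤ |x - y| := by
  have e : FF x - FF y = (x - y) * (1 - (x + y)) * (4 * (1 - (x * (1 - x) + y * (1 - y)))) *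
      (8 / 3 * (1 - (4 * (x * (1 - x)) * (1 - x * (1 - x)) +
        4 * (y * (1 - y)) * (1 - y * (1 - y))))) := by unfold FF; ring
  have hu0 : 2 / 9 ≤ x * (1 - x) := by nlinarith
  have hu1 : x * (1 - x) ≤ 1 / 4 := by nlinarith [sq_nonneg (x - 1 / 2)]
  have hv0 : 2 / 9 ≤ y * (1 - y) := by nlinarith
  have hv1 : y * (1 - y) ≤ 1 / 4 := by nlinarith [sq_nonneg (y - 1 / 2)]
  rw [e]
  generalize x * (1 - x) = u at hu0 hu1
  generalize y * (1 - y) = v at hv0 hv1
  have ha0 : 1 / 2 ≤ 4 * u * (1 - u) := by nlinarith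
  have ha1 : 4 * u * (1 - u) ≤ 3 / 4 := by nlinarith
  have hb0 : 1 / 2 ≤ 4 * v * (1 - v) := by nlinarith
  have hb1 : 4 * v * (1 - v) ≤ 3 / 4 := by nlinarith
  generalize 4 * u * (1 - u) = a at ha0 ha1
  generalize 4 * v * (1 - v) = b at hb0 hb1
  rw [abs_mul, abs_mul, abs_mul]
  have k1 : |1 - (x + y)| ≤ 1 / 3 := by rw [abs_le]; constructor <;> linarith
  have k2 : |4 * (1 - (u + v))| ≤ 20 / 9 := by rw [abs_le]; constructor <;> linarith
  have k3 : |8 / 3 * (1 - (a + b))| ≤ 4 / 3 := by rw [abs_le]; constructor <;> linarith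
  have h0 := abs_nonneg (x - y)
  calc |x - y| * |1 - (x + y)| * |4 * (1 - (u + v))| * |8 / 3 * (1 - (a + b))|
      ≤ |x - y| * (1 / 3) * (20 / 9) * (4 / 3) := by gcongr
    _ ≤ |x - y| := by nlinarith

/-- the entropy of the first composition is zero -/
theorem entropy_F : coverEntropy F univ = 0 := by
  classical
  apply entropy_zero
  intro ε hε
  obtain ⟨m, hm⟩ := exists_nat_gt (1 / ε)
  have hm0 : (0 : ℝ) < m := lt_trans (by positivity) hm
  have hmε : 1 / (m : ℝ) < ε := by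
    rw [div_lt_iff₀ hm0]; rw [div_lt_iff₀ hε] at hm; linarith
  refine ⟨2 * (m + 1) ^ 2, fun n => ?_⟩
  -- cells
  let cell : unitInterval → Fin (m + 1) := fun t => ⟨⌊(m : ℝ) * t⌋₊, by
    rw [Nat.lt_succ_iff]
    refine Nat.floor_le_of_le ?_
    nlinarith [t.2.2]⟩
  have hcell : ∀ t t' : unitInterval, cell t = cell t' → |(t : ℝ) - t'| < ε := by
    intro t t' h
    have h1 : ⌊(m : ℝ) * t⌋₊ = ⌊(m : ℝ) * t'⌋₊ := congrArg Fin.val h
    have h2 := Nat.floor_le (mul_nonneg hm0.le t.2.1)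
    have h3 := Nat.floor_le (mul_nonneg hm0.le t'.2.1)
    have h4 := Nat.lt_floor_add_one ((m : ℝ) * t)
    have h5 := Nat.lt_floor_add_one ((m : ℝ) * t')
    rw [h1] at h2 h4
    have h6 : |(m : ℝ) * ((t : ℝ) - t')| < 1 := by
      rw [abs_lt]; constructor <;> nlinarith
    rw [abs_mul, abs_of_pos hm0] at h6
    have h7 : |(t : ℝ) - t'| < 1 / m := by
      rw [lt_div_iff₀ hm0]; linarith
    exact h7.trans hmε
  -- folding
  let fold : unitInterval → unitInterval := fun x => if (x : ℝ) ≤ 1 / 2 then x else unitInterval.symm x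
  have hfold1 : ∀ x, ((fold x : unitInterval) : ℝ) ≤ 1 / 2 := by
    intro x
    simp only [fold]
    split_ifs with h
    · exact h
    · rw [unitInterval.coe_symm_eq]; linarith
  have hfoldF : ∀ x, F (fold x) = F x := by
    intro x
    simp only [fold]
    split_ifs with h
    · rfl
    · apply Subtype.ext
      rw [F_coe, F_coe, unitInterval.coe_symm_eq, FF_symm]
  have hfoldk : ∀ x k, 1 ≤ k → F^[k] (fold x) = F^[k] x := by
    intro x k hk
    obtain ⟨j, rfl⟩ : ∃ j, k = j + 1 := ⟨k - 1, by omega⟩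
    rw [Function.iterate_succ_apply, Function.iterate_succ_apply, hfoldF]
  -- the first time in the middle
  have hex : ∀ x : unitInterval, ∃ k, k = n ∨ 1 / 12 ≤ ((F^[k] x : unitInterval) : ℝ) :=
    fun x => ⟨n, Or.inl rfl⟩
  let τ : unitInterval → ℕ := fun x => Nat.find (hex x)
  have hτn : ∀ x, τ x ≤ n := fun x => Nat.find_min' (hex x) (Or.inl rfl)
  have hτlt : ∀ x k, k < τ x → ((F^[k] x : unitInterval) : ℝ) < 1 / 12 := by
    intro x k hk
    have := Nat.find_min (hex x) hk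
    rw [not_or, not_le] at this
    exact this.2
  have hτ : ∀ x, τ x < n → 1 / 12 ≤ ((F^[τ x] x : unitInterval) : ℝ) := by
    intro x hx
    rcases Nat.find_spec (hex x) with h | h
    · exact absurd h hx.ne
    · exact h
  refine ⟨Bool × Fin (n + 1) × Fin (m + 1) × Fin (m + 1), inferInstance,
    fun x => (decide ((x : ℝ) ≤ 1 / 2), ⟨τ (fold x), Nat.lt_succ_of_le (hτn _)⟩,
      cell (F^[τ (fold x)] (fold x)), cell (F^[τ (fold x) + 1] (fold x))), ?_, ?_⟩
  · simp only [Fintype.card_prod, Fintype.card_bool, Fintype.card_fin]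
    apply le_of_eq; ring
  intro x y hxy k hk
  rw [Prod.mk.injEq, Prod.mk.injEq, Prod.mk.injEq] at hxy
  obtain ⟨hside, ht, hc1, hc2⟩ := hxy
  have ht' : τ (fold x) = τ (fold y) := congrArg Fin.val ht
  have hd1 := hcell _ _ hc1
  have hd2 := hcell _ _ hc2
  -- expansion before the time `τ`
  have hA : ∀ j ≤ τ (fold x), |((F^[j] (fold x) : unitInterval) : ℝ) - F^[j] (fold y)| < ε := by
    have hmono : ∀ j < τ (fold x), |((F^[j] (fold x) : unitInterval) : ℝ) - F^[j] (fold y)| ≤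
        |((F^[j + 1] (fold x) : unitInterval) : ℝ) - F^[j + 1] (fold y)| := by
      intro j hj
      rw [Function.iterate_succ_apply', Function.iterate_succ_apply', F_coe, F_coe]
      have a1 := hτlt (fold x) j hj
      have a2 := hτlt (fold y) j (by rw [← ht']; exact hj)
      have a3 := (F^[j] (fold x)).2.1
      have a4 := (F^[j] (fold y)).2.1
      rcases le_total ((F^[j] (fold x) : unitInterval) : ℝ) (F^[j] (fold y)) with h | h
      · have h5 := FF_exp a3 h a2.le
        rw [abs_sub_comm, abs_of_nonneg (by linarith), abs_sub_comm, abs_of_nonneg (by linarith)]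
        exact h5
      · have h5 := FF_exp a4 h a1.le
        rw [abs_of_nonneg (by linarith), abs_of_nonneg (by linarith)]
        exact h5
    have hback : ∀ d j, j + d = τ (fold x) →
        |((F^[j] (fold x) : unitInterval) : ℝ) - F^[j] (fold y)| < ε := by
      intro d
      induction d with
      | zero =>
        intro j hj
        rw [add_zero] at hj
        rw [← ht', ← hj] at hd1
        exact hd1
      | succ d ih =>
        intro j hj
        exact lt_of_le_of_lt (hmono j (by omega)) (ih (j + 1) (by omega))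
    intro j hj
    exact hback (τ (fold x) - j) j (by omega)
  -- non-expansion after the time `τ + 1`
  have hB : τ (fold x) < n → ∀ j, τ (fold x) + 1 ≤ j →
      |((F^[j] (fold x) : unitInterval) : ℝ) - F^[j] (fold y)| < ε := by
    intro hτn'
    have hmid : ∀ z : unitInterval, τ (fold z) < n → ∀ j, τ (fold z) + 1 ≤ j →
        1 / 2 ≤ ((F^[j] (fold z) : unitInterval) : ℝ) ∧ ((F^[j] (fold z) : unitInterval) : ℝ) ≤ 2 / 3 := by
      intro z hz j hj
      induction j, hj using Nat.le_induction with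
      | base =>
        rw [Function.iterate_succ_apply', F_coe]
        refine ⟨FF_mid (hτ _ hz) ?_, FF_le⟩
        rcases Nat.eq_zero_or_pos (τ (fold z)) with h0 | h0
        · rw [h0]
          show ((fold z : unitInterval) : ℝ) ≤ _
          linarith [hfold1 z]
        · obtain ⟨i, hi⟩ : ∃ i, τ (fold z) = i + 1 := ⟨τ (fold z) - 1, by omega⟩
          rw [hi, Function.iterate_succ_apply', F_coe]
          exact FF_le.trans (by norm_num)
      | succ j hj ih =>
        rw [Function.iterate_succ_apply', F_coe]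
        exact ⟨FF_mid (by linarith [ih.1]) (by linarith [ih.2]), FF_le⟩
    intro j hj
    induction j, hj using Nat.le_induction with
    | base => rw [← ht'] at hd2; exact hd2
    | succ j hj ih =>
      rw [Function.iterate_succ_apply', Function.iterate_succ_apply', F_coe, F_coe]
      obtain ⟨b1, b2⟩ := hmid x hτn' j hj
      obtain ⟨b3, b4⟩ := hmid y (by rw [← ht']; exact hτn') j (by rw [← ht']; exact hj)
      exact lt_of_le_of_lt (FF_nonexp b1 b2 b3 b4) ih
  have hall : ∀ j < n, |((F^[j] (fold x) : unitInterval) : ℝ) - F^[j] (fold y)| < ε := by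
    intro j hj
    rcases Nat.lt_or_ge (τ (fold x)) j with h | h
    · exact hB (lt_trans h hj) j h
    · exact hA j h
  rw [Subtype.dist_eq, Real.dist_eq]
  rcases Nat.eq_zero_or_pos k with h0 | h0
  · rw [h0]
    have h1 := hall 0 (by omega)
    simp only [Function.iterate_zero, id_eq] at h1 ⊢
    have hs : ((x : ℝ) ≤ 1 / 2) ↔ ((y : ℝ) ≤ 1 / 2) := by
      simpa using hside
    simp only [fold] at h1
    by_cases hx : (x : ℝ) ≤ 1 / 2
    · rw [if_pos hx, if_pos (hs.1 hx)] at h1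
      exact h1
    · rw [if_neg hx, if_neg (fun h => hx (hs.2 h)), unitInterval.coe_symm_eq,
        unitInterval.coe_symm_eq] at h1
      rw [abs_sub_comm]
      have : 1 - (x : ℝ) - (1 - y) = y - x := by ring
      rwa [this] at h1
  · rw [← hfoldk x k h0, ← hfoldk y k h0]
    exact hall k hk

/-! ### the composition with positive entropy -/

/-- the second composition -/
noncomputable def G : unitInterval → unitInterval := logistic p ∘ logistic r ∘ logistic q

/-- its formula -/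
noncomputable def GG (x : ℝ) : ℝ :=
  8 / 3 * (1 * (4 * x * (1 - x)) * (1 - 4 * x * (1 - x))) *
    (1 - 1 * (4 * x * (1 - x)) * (1 - 4 * x * (1 - x)))

lemma G_coe (x : unitInterval) : ((G x : unitInterval) : ℝ) = GG x := rfl

lemma continuous_GG : Continuous GG := by unfold GG; fun_prop

/-- the preimage of the critical point -/
noncomputable def x₀ : ℝ := (2 - Real.sqrt 2) / 4

lemma x₀_bounds : 0 ≤ x₀ ∧ x₀ ≤ 3 / 20 := by
  unfold x₀
  have h1 : Real.sqrt 2 ≤ 2 := by
    rw [Real.sqrt_le_left (by norm_num)]; norm_num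
  have h2 : 7 / 5 ≤ Real.sqrt 2 := by
    apply Real.le_sqrt_of_sq_le; norm_num
  constructor <;> linarith

lemma GG_x₀ : GG x₀ = 1 / 2 := by
  have h1 : Real.sqrt 2 * Real.sqrt 2 = 2 := Real.mul_self_sqrt (by norm_num)
  have h2 : 4 * x₀ * (1 - x₀) = 1 / 2 := by
    unfold x₀
    nlinarith
  unfold GG
  rw [h2]; norm_num

lemma GG_zero : GG 0 = 0 := by unfold GG; norm_num

lemma cover1 {y : ℝ} (h0 : 0 ≤ y) (h1 : y ≤ 1 / 2) : ∃ z, 0 ≤ z ∧ z ≤ x₀ ∧ GG z = y := by
  have h := intermediate_value_Icc (f := GG) x₀_bounds.1 continuous_GG.continuousOn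
  rw [GG_x₀, GG_zero] at h
  obtain ⟨z, hz, hzy⟩ := h ⟨h0, h1⟩
  exact ⟨z, hz.1, hz.2, hzy⟩

lemma cover2 {z : ℝ} (h0 : 0 ≤ z) (h1 : z ≤ x₀) : ∃ x, 0 ≤ x ∧ x ≤ 1 / 50 ∧ GG x = z := by
  have h := intermediate_value_Icc (f := GG) (show (0 : ℝ) ≤ 1 / 50 by norm_num)
    continuous_GG.continuousOn
  have h2 : x₀ ≤ GG (1 / 50) := x₀_bounds.2.trans (by unfold GG; norm_num)
  rw [GG_zero] at h
  obtain ⟨x, hx, hxz⟩ := h ⟨h0, h1.trans h2⟩
  exact ⟨x, hx.1, hx.2, hxz⟩

lemma cover3 {z : ℝ} (h0 : 0 ≤ z) (h1 : z ≤ x₀) : ∃ x, 1 / 3 ≤ x ∧ x ≤ 1 / 2 ∧ GG x = z := by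
  have h := intermediate_value_Icc' (f := GG) (show (1 / 3 : ℝ) ≤ 1 / 2 by norm_num)
    continuous_GG.continuousOn
  have h2 : x₀ ≤ GG (1 / 3) := x₀_bounds.2.trans (by unfold GG; norm_num)
  have h3 : GG (1 / 2) = 0 := by unfold GG; norm_num
  rw [h3] at h
  obtain ⟨x, hx, hxz⟩ := h ⟨h0, h1.trans h2⟩
  exact ⟨x, hx.1, hx.2, hxz⟩

/-- the entropy of the second composition is positive -/
theorem entropy_G : ((Real.log 2 / 2 : ℝ) : EReal) ≤ coverEntropy G univ := by
  refine entropy_pos G (fun b => if b then {x | 1 / 3 ≤ (x : ℝ) ∧ (x : ℝ) ≤ 1 / 2}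
    else {x | (x : ℝ) ≤ 1 / 50}) (δ := 1 / 10) (by norm_num) ?_ ?_ ?_
  · intro x hx y hy
    simp only [Bool.false_eq_true, if_false, if_true] at hx hy
    have h1 : (x : ℝ) ≤ 1 / 50 := hx
    have h2 : 1 / 3 ≤ (y : ℝ) := hy.1
    rw [Subtype.dist_eq, Real.dist_eq, abs_sub_comm, abs_of_nonneg (by linarith)]
    linarith
  · exact ⟨⟨1 / 2, by norm_num, by norm_num⟩, by
      simp only [if_true]
      exact ⟨by norm_num, le_rfl⟩⟩
  · intro b c y hy
    have hy1 : (y : ℝ) ≤ 1 / 2 := by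
      cases c
      · simp only [Bool.false_eq_true, if_false] at hy
        have : (y : ℝ) ≤ 1 / 50 := hy
        linarith
      · simp only [if_true] at hy
        exact hy.2
    obtain ⟨z, hz0, hz1, hzy⟩ := cover1 y.2.1 hy1
    have hx₀ := x₀_bounds
    cases b
    · obtain ⟨x, hx0, hx1, hxz⟩ := cover2 hz0 hz1
      refine ⟨⟨x, hx0, by linarith⟩, ?_, ?_⟩
      · simp only [Bool.false_eq_true, if_false]
        exact hx1
      · apply Subtype.ext
        rw [G_coe, G_coe]
        show GG (GG x) = y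
        rw [hxz, hzy]
    · obtain ⟨x, hx0, hx1, hxz⟩ := cover3 hz0 hz1
      refine ⟨⟨x, by linarith, by linarith⟩, ?_, ?_⟩
      · simp only [if_true]
        exact ⟨hx0, hx1⟩
      · apply Subtype.ext
        rw [G_coe, G_coe]
        show GG (GG x) = y
        rw [hxz, hzy]

/-- There are parameters `a₁, a₂, a₃ ∈ [1,4]` for which `f₁ ∘ f₂ ∘ f₃` has entropy zero and
`f₁ ∘ f₃ ∘ f₂` has entropy at least `(log 2)/2`; in particular the two entropies are different. -/
theorem result : ∃ a₁ a₂ a₃ : Icc (1 : ℝ) 4,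
    coverEntropy (logistic a₁ ∘ logistic a₂ ∘ logistic a₃) univ = 0 ∧
    ((Real.log 2 / 2 : ℝ) : EReal) ≤ coverEntropy (logistic a₁ ∘ logistic a₃ ∘ logistic a₂) univ ∧
    coverEntropy (logistic a₁ ∘ logistic a₂ ∘ logistic a₃) univ ≠
      coverEntropy (logistic a₁ ∘ logistic a₃ ∘ logistic a₂) univ := by
  refine ⟨p, q, r, entropy_F, entropy_G, fun h => ?_⟩
  have h1 := entropy_G
  have h2 : coverEntropy G univ = 0 := h.symm.trans entropy_F
  rw [h2] at h1
  have h3 : Real.log 2 / 2 ≤ 0 := by exact_mod_cast h1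
  have := Real.log_pos (show (1 : ℝ) < 2 by norm_num)
  linarith

end Pool.Agent.Results.MP_3cd2af_an.LogisticReordering
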